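import Mathlib
import Pool.Agent.H826R3.CKDiam

set_option autoImplicit false

/-!
The isomorphism class of `C(K)` has infinite Banach-Mazur diameter for every infinite compact
Hausdorff space `K`, in particular for every Kunen compact.
-/

namespace Pool.Agent.Results.MP_d900b7_an.DiameterInfinite

open Pool.Agent.H826R3.CKDiam

universe u

/-- For every infinite compact Hausdorff space `K` (such as a Kunen compact) and every number `M`
there is a Banach space `Z` isomorphic to `C(K)` such that every isomorphism `T` of `C(K)` onto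
`Z` satisfies `‖T‖ ‖T⁻¹‖ ≥ M`. -/
theorem far (K : Type u) [TopologicalSpace K] [CompactSpace K] [T2Space K] [Infinite K]
    (M : ℝ) :
    ∃ (Z : Type u) (_ : NormedAddCommGroup Z) (_ : NormedSpace ℝ Z) (_ : CompleteSpace Z),
      Nonempty (C(K, ℝ) ≃L[ℝ] Z) ∧
      ∀ T : C(K, ℝ) ≃L[ℝ] Z,
        M ≤ ‖(T : C(K, ℝ) →L[ℝ] Z)‖ * ‖(T.symm : Z →L[ℝ] C(K, ℝ))‖ := by
  obtain ⟨n, hn⟩ := exists_nat_ge (max 1 (3 * M ^ 2))
  have hn1 : (1 : ℝ) ≤ n := (le_max_left _ _).trans hn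
  have hn3 : 3 * M ^ 2 ≤ n := (le_max_right _ _).trans hn
  have hn0 : 0 < n := by
    rcases Nat.eq_zero_or_pos n with h | h
    · rw [h] at hn1; norm_num at hn1
    · exact h
  -- evaluation at `n` distinct points
  obtain ⟨t, ht⟩ : ∃ t : Fin n → K, Function.Injective t :=
    ⟨fun i => Infinite.natEmbedding K i, fun i j h =>
      Fin.ext ((Infinite.natEmbedding K).injective h)⟩
  let ev : C(K, ℝ) →L[ℝ] (Fin n → ℝ) :=
    ContinuousLinearMap.pi fun i => ContinuousMap.evalCLM ℝ (t i)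
  have hev : ∀ (g : C(K, ℝ)) (i : Fin n), ev g i = g (t i) := fun g i => rfl
  have hsurj : Function.Surjective ev := by
    intro y
    have hcl : Topology.IsClosedEmbedding t :=
      Continuous.isClosedEmbedding continuous_of_discreteTopology ht
    obtain ⟨g, hg⟩ := ContinuousMap.exists_extension hcl
      (⟨y, continuous_of_discreteTopology⟩ : C(Fin n, ℝ))
    refine ⟨g, funext fun i => ?_⟩
    rw [hev]
    have := congrArg (fun f : C(Fin n, ℝ) => f i) hg
    exact this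
  obtain ⟨s, hs⟩ := (ev : C(K, ℝ) →ₗ[ℝ] (Fin n → ℝ)).exists_rightInverse_of_surjective
    (LinearMap.range_eq_top.2 hsurj)
  let s' : (Fin n → ℝ) →L[ℝ] C(K, ℝ) := LinearMap.toContinuousLinearMap s
  have hs' : Function.RightInverse s' ev := fun y => LinearMap.congr_fun hs y
  let e1 : C(K, ℝ) ≃L[ℝ] (Fin n → ℝ) × (LinearMap.ker (ev : C(K, ℝ) →ₗ[ℝ] (Fin n → ℝ))) :=
    ContinuousLinearEquiv.equivOfRightInverse ev s' hs'
  let e2 : (Fin n → ℝ) ≃L[ℝ] PiLp 1 (fun _ : Fin n => ℝ) :=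
    (PiLp.continuousLinearEquiv 1 ℝ (fun _ : Fin n => ℝ)).symm
  have hFc : CompleteSpace (LinearMap.ker (ev : C(K, ℝ) →ₗ[ℝ] (Fin n → ℝ))) :=
    ev.completeSpace_ker
  refine ⟨PiLp 1 (fun _ : Fin n => ℝ) × (LinearMap.ker (ev : C(K, ℝ) →ₗ[ℝ] (Fin n → ℝ))),
    inferInstance, inferInstance, inferInstance,
    ⟨e1.trans (e2.prodCongr (ContinuousLinearEquiv.refl ℝ _))⟩, fun T => ?_⟩
  refine le_trans ?_ (lower hn0 T)
  rw [← Real.sqrt_div (by positivity)]
  apply Real.le_sqrt_of_sq_le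
  rw [le_div_iff₀ (by norm_num)]
  linarith

open scoped ENNReal NNReal

/-- The Banach-Mazur distance `d(Y, Z)`, the infimum of `‖T‖ ‖T⁻¹‖` over all linear isomorphisms
`T` of `Y` onto `Z`, as an element of `[0, ∞]`. -/
noncomputable def bmDist (Y Z : Type u) [NormedAddCommGroup Y] [NormedSpace ℝ Y]
    [NormedAddCommGroup Z] [NormedSpace ℝ Z] : ℝ≥0∞ :=
  ⨅ T : Y ≃L[ℝ] Z, ENNReal.ofReal (‖(T : Y →L[ℝ] Z)‖ * ‖(T.symm : Z →L[ℝ] Y)‖)

/-- `D(X)`, the supremum of `d(Y, Z)` over all Banach spaces `Y` and `Z` isomorphic to `X`, as an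
element of `[0, ∞]`. -/
noncomputable def bmDiam (X : Type u) [NormedAddCommGroup X] [NormedSpace ℝ X] : ℝ≥0∞ :=
  ⨆ (Y : Type u) (_ : NormedAddCommGroup Y) (_ : NormedSpace ℝ Y) (_ : CompleteSpace Y)
    (Z : Type u) (_ : NormedAddCommGroup Z) (_ : NormedSpace ℝ Z) (_ : CompleteSpace Z)
    (_ : Nonempty (X ≃L[ℝ] Y)) (_ : Nonempty (X ≃L[ℝ] Z)), bmDist Y Z

/-- **Theorem.** `D(C(K)) = ∞` for every infinite compact Hausdorff space `K`. In particular this
holds for every Kunen compact, which is compact Hausdorff and nonmetrizable, hence infinite. -/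
theorem result (K : Type u) [TopologicalSpace K] [CompactSpace K] [T2Space K] [Infinite K] :
    bmDiam C(K, ℝ) = ∞ := by
  apply ENNReal.eq_top_of_forall_nnreal_le
  intro M
  obtain ⟨Z, i1, i2, i3, ⟨e⟩, h⟩ := far K M
  have h1 : (M : ℝ≥0∞) ≤ bmDist C(K, ℝ) Z := by
    apply le_iInf
    intro T
    rw [← ENNReal.ofReal_coe_nnreal]
    exact ENNReal.ofReal_le_ofReal (h T)
  refine h1.trans ?_
  unfold bmDiam
  exact le_iSup_of_le C(K, ℝ) <| le_iSup_of_le inferInstance <| le_iSup_of_le inferInstance <|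
    le_iSup_of_le inferInstance <|
    le_iSup_of_le Z <| le_iSup_of_le i1 <| le_iSup_of_le i2 <| le_iSup_of_le i3 <|
    le_iSup_of_le ⟨ContinuousLinearEquiv.refl ℝ _⟩ <| le_iSup_of_le ⟨e⟩ le_rfl

end Pool.Agent.Results.MP_d900b7_an.DiameterInfinite
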